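import Pool.Agent.H98.Cut10

namespace Pool.Agent.Results.MP_62448f_co.Range

theorem result (n k : ℕ) (hk : k ≤ 9 ∨ 2 * k ^ 3 ≤ n ^ 2)
    (p : Fin n → ℝ × ℝ) (hinj : Function.Injective p)
    (hgp : ∀ a b c, a ≠ b → a ≠ c → b ≠ c → ¬ Collinear ℝ ({p a, p b, p c} : Set (ℝ × ℝ)))
    (G : SimpleGraph (Fin n)) (hE : n * k < G.edgeSet.ncard) :
    ∃ α β γ : ℝ, (α ≠ 0 ∨ β ≠ 0) ∧ (∀ v, α * (p v).1 + β * (p v).2 ≠ γ) ∧
      k ^ 2 ≤ Set.ncard {e ∈ G.edgeSet | ∃ u v, e = s(u, v) ∧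
          ∃ x ∈ segment ℝ (p u) (p v), α * x.1 + β * x.2 = γ} := by
  classical
  have hE' : Fintype.card (Fin n) * k < G.edgeFinset.card := by
    rw [Fintype.card_fin, ← Set.ncard_coe_finset, SimpleGraph.coe_edgeFinset]
    exact hE
  obtain ⟨α, β, γ, g1, g2, x, y, hs⟩ := Pool.Agent.H98.Cut.best_line p hinj hgp G
  obtain ⟨h1, h2⟩ := Pool.Agent.H98.Cut.blk_of_small G hs k hE'
  rw [Fintype.card_fin] at h1 h2
  refine ⟨α, β, γ, g1, g2, ?_⟩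
  rcases hk with h | h
  · exact Pool.Agent.H98.Cut.blk_small n k _ h2 h1 h
  · exact Pool.Agent.H98.Cut.blk_power n k _ h2 h1 h

end Pool.Agent.Results.MP_62448f_co.Range
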